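import Mathlib
import Pool.Agent.Run7.h740.AP

/-!
# Spherical cusp forms on `PGL_n`: bounds towards Ramanujan at almost all primes, in very short initial ranges

Let `n ≥ 2` and let `φ` be a spherical cusp form on `PGL_n` over `ℚ` with Satake parameters `α_{i,p}` and Langlands
parameters `μ_i` at the real place, `θ_{φ,p} = max_i |log_p |α_{i,p}||` and `C(φ) = ∏_{i,j} (1 + |μ_i - μ_j|)`. We show:

* for every `ε > 0` there is `A`, depending on `n` and `ε` only, such that for all `φ`, all `θ ≥ 0` and all `x ≥ 1` the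
  number of the primes `p ≤ x` with `θ_{φ,p} ≥ θ` is at most `A (1 + log C(φ)) x^{⌊n/2⌋ (1 - 2 θ + ε)}`;
* for every `δ > 0` there is `A`, depending on `n` and `δ` only, such that for all `φ` and all
  `x ≥ A (1 + log C(φ))^{2/δ}` all but at most `x^{1-δ}` of the primes `p ≤ x` satisfy
  `θ_{φ,p} < 1/2 - 1/(2 ⌊n/2⌋) + δ`.

So for `n = 2, 3` almost all primes up to a power of the **logarithm** of the conductor have `θ_{φ,p} < δ`, and for
`n = 4, 5` they have `θ_{φ,p} < 1/4 + δ`; for comparison, the bounds known for all primes are `7/64`, `5/14`, `9/22` for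
`n = 2, 3, 4` and `1/2 - 1/(n² + 1)` for `n ≥ 5` (so `6/13` for `n = 5`), and `1/2 - 1/(2 ⌊n/2⌋)` is smaller than
`1/2 - 1/(n² + 1)` for all `n`. The former density theorem of this problem (`DensityTheorem`) is for a fixed prime and
varying forms; here the form is fixed and the primes vary.

Used are the structure `SphericalCuspForm` of the former results on this problem (unitarity; absolute convergence of
`L(s, π × π~)` for `Re s > 1`, its continuation, growth and functional equation) and the bounds of Jacquet and Shalika.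

The proof. Let `s_k(p) = ∑_i α_{i,p}^k`. If some parameter at `p` has absolute value `R ≥ 2`, then `|s_k(p)| ≥ R^k / (2n)` for
some `k ≤ ⌊n/2⌋`: otherwise Newton's identities give `|e_k| ≤ R^k / (2n)` for the elementary symmetric functions with
`1 ≤ k ≤ n/2`, and by unitarity `|e_{n-k}| = |e_k| ≤ R^k / (2n) ≤ R^{n-k} / (2n)` for these `k`, which contradicts the
equation `R^n ≤ ∑_k |e_k| R^{n-k}`. The sum of all `|s_k(p)|² / (k p^{k(1+ε)})` is `log L(1 + ε, π × π~)`, which is at
most `A + 3 log C(φ)`.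
-/

set_option autoImplicit false

namespace Pool.Agent.Results.MP_fa98d2_nt.AlmostAllPrimes

open Pool.Agent.TH949.RES (SphericalCuspForm)
open Run7.h740.AP (exc cond)

/-- **Bounds towards Ramanujan at almost all primes.** Here `exc α θ x` is the set of the primes `p ≤ x` with
`θ ≤ |log_p |α_{i,p}||` for some `i`, and `cond μ = ∏_{i,j} (1 + |μ_i - μ_j|)`. -/
theorem result {n : ℕ} (hn : 2 ≤ n) {δ : ℝ} (hδ : 0 < δ) : ∃ A : ℝ, 0 < A ∧
    ∀ (α : Nat.Primes → Fin n → ℂ) (μ : Fin n → ℂ), SphericalCuspForm α μ →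
      (∀ (p : Nat.Primes) i, ‖α p i‖ < ((p : ℕ) : ℝ) ^ (1 / 2 : ℝ)) → (∀ i, |(μ i).re| < 1 / 2) →
      (∀ θ x : ℝ, 0 ≤ θ → 1 ≤ x →
        ((exc α θ x).ncard : ℝ) ≤ A * (1 + Real.log (cond μ)) * x ^ (((n / 2 : ℕ) : ℝ) * (1 - 2 * θ + δ))) ∧
      ∀ x : ℝ, A * (1 + Real.log (cond μ)) ^ (2 / δ) ≤ x →
        ((exc α (1 / 2 - 1 / (2 * ((n / 2 : ℕ) : ℝ)) + δ) x).ncard : ℝ) ≤ x ^ (1 - δ) := by
  obtain ⟨A, hA, h⟩ := Run7.h740.AP.count hn hδ
  obtain ⟨B, hB, h'⟩ := Run7.h740.AP.almost hn hδ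
  refine ⟨max A B, lt_max_of_lt_left hA, fun α μ h1 h2 h3 => ⟨fun θ x hθ hx => ?_, fun x hx => ?_⟩⟩
  · have hL : 0 ≤ Real.log (cond μ) := Real.log_nonneg (Run7.h740.AP.one_le_cond μ)
    refine (h α μ h1 h2 h3 θ x hθ hx).trans ?_
    have : A ≤ max A B := le_max_left _ _
    gcongr
  · have hL : 0 ≤ Real.log (cond μ) := Real.log_nonneg (Run7.h740.AP.one_le_cond μ)
    refine h' α μ h1 h2 h3 x (le_trans ?_ hx)
    have : B ≤ max A B := le_max_right _ _
    gcongr

end Pool.Agent.Results.MP_fa98d2_nt.AlmostAllPrimes
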