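import Pool.Agent.Run7.h736.LS.A8

/-!
# Common exceptional primes of several spherical cusp forms on `PGL(2)`

Let `π_1, …, π_m` be spherical cusp forms on `PGL(2)` over `ℚ` whose lifts `Sym^r π_i` (`r ≤ 4`), `π_i ⊠ π_j` and
`π_i ⊠ Sym² π_j` are cuspidal and inequivalent. By the Rankin-Selberg theory these lifts form an orthonormal system on
the primes of every residue class. At a prime which is exceptional for all `π_i` they are all large; if the signs of the
Hecke eigenvalues are prescribed, their values reinforce each other, and the density of such primes decays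
quadratically in `m`; without a condition on the signs it still decays like `1 / (36 m)` (for one form the bound `1/35`
is due to Kim and Shahidi).
-/

set_option autoImplicit false

namespace Pool.Agent.Results.MP_fa98d2_nt.CoherentExceptions

open Run7.h736.LS

theorem result (m : ℕ) (hm : 0 < m) (α : Fin m → Nat.Primes → ℂ) (hs : Satake α) (h : System (allTraces α))
    (q : ℕ) [NeZero q] (a : ZMod q) (ha : IsUnit a) :
    -- all `π_i` are not tempered, with prescribed signs of the eigenvalues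
    (∀ ε : Fin m → ℝ, (∀ i, ε i = 1 ∨ ε i = -1) →
      DensityLE {p | ((p : ℕ) : ZMod q) = a ∧ ∀ i, ‖α i p‖ ≠ 1 ∧ 0 < ε i * lam α i p}
        (1 / (q.totient * (44 * m ^ 2 + 10 * m + 1)))) ∧
    -- all `π_i` are not tempered
    DensityLE {p | ((p : ℕ) : ZMod q) = a ∧ ∀ i, ‖α i p‖ ≠ 1} (1 / (q.totient * max (36 * (m : ℝ) - 16) (34 * (m : ℝ) + 1))) ∧
    -- large eigenvalues
    ∀ T : ℝ, 2 ≤ T →
      (∀ ε : Fin m → ℝ, (∀ i, ε i = 1 ∨ ε i = -1) →
        -- prescribed signs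
        DensityLE {p | ((p : ℕ) : ZMod q) = a ∧ ∀ i, T ≤ ε i * lam α i p}
          (1 / (q.totient * (1 +
            m * (T ^ 2 + (T ^ 2 - 1) ^ 2 + (T ^ 3 - 2 * T) ^ 2 + (T ^ 4 - 3 * T ^ 2 + 1) ^ 2) +
            m * (m - 1) / 2 * T ^ 4 + m * (m - 1) * (T * (T ^ 2 - 1)) ^ 2))) ∧
        -- signs prescribed up to a common sign
        DensityLE {p | ((p : ℕ) : ZMod q) = a ∧ ∃ s : ℝ, (s = 1 ∨ s = -1) ∧ ∀ i, T ≤ s * (ε i * lam α i p)}
          (1 / (q.totient * (m * (T ^ 2 + (T ^ 3 - 2 * T) ^ 2) + m * (m - 1) * (T * (T ^ 2 - 1)) ^ 2)))) ∧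
      -- arbitrary signs
      DensityLE {p | ((p : ℕ) : ZMod q) = a ∧ ∀ i, T ≤ |lam α i p|}
        (1 / (q.totient * max (T ^ 2 + (T ^ 3 - 2 * T) ^ 2 + (m - 1) * (T * (T ^ 2 - 1)) ^ 2)
          (1 + m * ((T ^ 2 - 1) ^ 2 + (T ^ 4 - 3 * T ^ 2 + 1) ^ 2)))) := by
  have both : ∀ T : ℝ, 2 ≤ T → DensityLE {p | ((p : ℕ) : ZMod q) = a ∧ ∀ i, T ≤ |lam α i p|}
        (1 / (q.totient * max (T ^ 2 + (T ^ 3 - 2 * T) ^ 2 + (m - 1) * (T * (T ^ 2 - 1)) ^ 2)
          (1 + m * ((T ^ 2 - 1) ^ 2 + (T ^ 4 - 3 * T ^ 2 + 1) ^ 2)))) := by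
    intro T hT
    rcases max_choice (T ^ 2 + (T ^ 3 - 2 * T) ^ 2 + (m - 1) * (T * (T ^ 2 - 1)) ^ 2)
      (1 + m * ((T ^ 2 - 1) ^ 2 + (T ^ 4 - 3 * T ^ 2 + 1) ^ 2)) with h1 | h1
    · rw [h1]
      exact odd_lifts hs h ha hT hm
    · rw [h1]
      exact even_lifts hs (sym_of_all h) ha hT
  refine ⟨fun ε hε => ?_, ?_, fun T hT => ⟨fun ε hε => ⟨signs hs h ha hT hε, coherent hs h ha hT hm hε⟩,
    both T hT⟩⟩
  · refine (signs hs h ha le_rfl hε).mono (fun p hp => ⟨hp.1, fun i => ?_⟩) (le_of_eq ?_)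
    · obtain ⟨h1, h2⟩ := hp.2 i
      have h3 := two_le_abs_lam hs h1
      rcases hε i with h4 | h4
      · rw [h4, one_mul] at h2 ⊢
        rwa [abs_of_pos h2] at h3
      · rw [h4] at h2 ⊢
        rw [abs_of_neg (by linarith)] at h3
        linarith
    · unfold DD
      ring_nf
  · refine (both 2 le_rfl).mono (fun p hp => ⟨hp.1, fun i => two_le_abs_lam hs (hp.2 i)⟩) (le_of_eq ?_)
    congr 3
    · ring
    · ring

end Pool.Agent.Results.MP_fa98d2_nt.CoherentExceptions
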