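import Pool.Agent.Run7.h736.LS.A9

/-!
# At almost all primes of a residue class few of the forms of a family are exceptional

Let `π_1, …, π_m` be spherical cusp forms on `PGL(2)` over `ℚ` whose symmetric powers `Sym^r π_i`, `r ≤ 4`, are cuspidal
and inequivalent. It may happen that every one of them is not tempered at one prime in 35. We show that the exceptional
primes of the different forms are so independent that in every residue class, outside a set of primes of density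
`O(1 / (η² m))`, at most `(1/14 + η) m` of the forms are not tempered with an eigenvalue of the prescribed sign, and at
most `(1/10 + η) m` are not tempered; for `T ≥ 2` at most `(1 / (1 + T² + (T² - 1)²) + η) m` of the eigenvalues with
the prescribed sign, and at most `(1 / (1 + (T² - 1)²) + η) m` of all the eigenvalues, have absolute value `≥ T`.
-/

set_option autoImplicit false

namespace Pool.Agent.Results.MP_fa98d2_nt.FewExceptionalForms

open Run7.h736.LS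

theorem result (m : ℕ) (α : Fin m → Nat.Primes → ℂ) (hs : Satake α) (h : System (symTraces α))
    (q : ℕ) [NeZero q] (a : ZMod q) (ha : IsUnit a) (η : ℝ) (hη : 0 < η) :
    -- forms which are not tempered at `p`, with prescribed signs
    (∀ ε : Fin m → ℝ, (∀ i, ε i = 1 ∨ ε i = -1) →
      DensityLE {p | ((p : ℕ) : ZMod q) = a ∧
          (1 / 14 + η) * m ≤ ({i | ‖α i p‖ ≠ 1 ∧ 0 < ε i * lam α i p} : Set (Fin m)).ncard}
        (842 / (q.totient * (842 + 38416 * η ^ 2 * m)))) ∧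
    -- forms which are not tempered at `p`
    DensityLE {p | ((p : ℕ) : ZMod q) = a ∧ (1 / 10 + η) * m ≤ ({i | ‖α i p‖ ≠ 1} : Set (Fin m)).ncard}
      (153 / (q.totient * (153 + 5000 * η ^ 2 * m))) ∧
    -- large eigenvalues
    ∀ T : ℝ, 2 ≤ T →
      (∀ ε : Fin m → ℝ, (∀ i, ε i = 1 ∨ ε i = -1) →
        DensityLE {p | ((p : ℕ) : ZMod q) = a ∧
            (1 / (1 + T ^ 2 + (T ^ 2 - 1) ^ 2) + η) * m ≤ ({i | T ≤ ε i * lam α i p} : Set (Fin m)).ncard}
          ((4 * T ^ 6 + (T ^ 4 + T ^ 2 - 1) ^ 2 + 4 * T ^ 2 * (T ^ 2 - 1) ^ 2 + (T ^ 2 - 1) ^ 4) /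
            (q.totient * (4 * T ^ 6 + (T ^ 4 + T ^ 2 - 1) ^ 2 + 4 * T ^ 2 * (T ^ 2 - 1) ^ 2 + (T ^ 2 - 1) ^ 4 +
              (1 + T ^ 2 + (T ^ 2 - 1) ^ 2) ^ 4 * η ^ 2 * m)))) ∧
      DensityLE {p | ((p : ℕ) : ZMod q) = a ∧
          (1 / (1 + (T ^ 2 - 1) ^ 2) + η) * m ≤ ({i | T ≤ |lam α i p|} : Set (Fin m)).ncard}
        (((T ^ 4 - 1) ^ 2 + (T ^ 2 - 1) ^ 4) /
          (q.totient * ((T ^ 4 - 1) ^ 2 + (T ^ 2 - 1) ^ 4 + (1 + (T ^ 2 - 1) ^ 2) ^ 4 * η ^ 2 * m))) := by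
  have hq : (0 : ℝ) < q.totient := by exact_mod_cast Nat.totient_pos.2 (Nat.pos_of_neZero q)
  have hm0 : (0 : ℝ) ≤ m := Nat.cast_nonneg m
  refine ⟨fun ε hε => ?_, ?_, fun T hT => ⟨fun ε hε => few_pos hs h ha hT hε hη, few_abs hs h ha hT hη⟩⟩
  · refine (few_pos hs h ha le_rfl hε hη).mono (fun p hp => ⟨hp.1, ?_⟩) (le_of_eq ?_)
    · have h1 : ({i | ‖α i p‖ ≠ 1 ∧ 0 < ε i * lam α i p} : Set (Fin m)).ncard ≤
          ({i | 2 ≤ ε i * lam α i p} : Set (Fin m)).ncard := by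
        refine Set.ncard_le_ncard (fun i hi => ?_) (Set.toFinite _)
        obtain ⟨h1, h2⟩ := hi
        have h3 := two_le_abs_lam hs h1
        show 2 ≤ ε i * lam α i p
        rcases hε i with h4 | h4
        · rw [h4, one_mul] at h2 ⊢
          rwa [abs_of_pos h2] at h3
        · rw [h4] at h2 ⊢
          rw [abs_of_neg (by linarith)] at h3
          linarith
      have h2 : (1 / (1 + (2 : ℝ) ^ 2 + ((2 : ℝ) ^ 2 - 1) ^ 2) + η) = 1 / 14 + η := by norm_num
      rw [h2]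
      exact hp.2.trans (by exact_mod_cast h1)
    · norm_num
  · refine (few_abs hs h ha le_rfl hη).mono (fun p hp => ⟨hp.1, ?_⟩) (le_of_eq ?_)
    · have h1 : ({i | ‖α i p‖ ≠ 1} : Set (Fin m)).ncard ≤ ({i | 2 ≤ |lam α i p|} : Set (Fin m)).ncard :=
        Set.ncard_le_ncard (fun i hi => two_le_abs_lam hs hi) (Set.toFinite _)
      have h2 : (1 / (1 + ((2 : ℝ) ^ 2 - 1) ^ 2) + η) = 1 / 10 + η := by norm_num
      rw [h2]
      exact hp.2.trans (by exact_mod_cast h1)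
    · have h6 : (153 : ℝ) + 5000 * η ^ 2 * m ≠ 0 := by positivity
      have h7 : ((2 : ℝ) ^ 4 - 1) ^ 2 + ((2 : ℝ) ^ 2 - 1) ^ 4 +
          (1 + ((2 : ℝ) ^ 2 - 1) ^ 2) ^ 4 * η ^ 2 * m = 2 * (153 + 5000 * η ^ 2 * m) := by ring
      rw [h7, show ((2 : ℝ) ^ 4 - 1) ^ 2 + ((2 : ℝ) ^ 2 - 1) ^ 4 = 2 * 153 by norm_num]
      field_simp

end Pool.Agent.Results.MP_fa98d2_nt.FewExceptionalForms
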