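import Mathlib
import Pool.Agent.Run7.h716.SI.Exc

/-!
# Spherical cusp forms on `PGL_n`: the Ramanujan conjecture at the primes of short intervals

Let `n ≥ 2` and let `φ` be a spherical cusp form on `PGL_n` over `ℚ` with Satake parameters `α_{i,p}` and Langlands
parameters `μ_i` at the real place, `θ_{φ,p} = max_i |log_p |α_{i,p}||` and `1 + |μ_i - μ_j| ≤ M`. Let `k ≥ 1` and `ε > 0`.
We show, with a constant `A` that depends only on `n`, `k`, `ε`, for all `φ`, all `y ≥ M^{(n² + 2) / (2k)}`, all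
`1 ≤ H ≤ y` and all `θ ≥ 0`, that at most

  `A y^{⌊n/2⌋(1 - 2θ) + ε} max(H / y, y^{-2k/(n²+1)})^{1/k}`

primes `p ∈ (y, y + H]` have `θ_{φ,p} ≥ θ`.

So (`k = 1`) for every `φ` and all `y ≥ M^{(n²+2)/2}` almost all primes in **every** interval `(y, y + H]` of length
`H ≥ y^{1 - 2/(n²+1)}` have `θ_{φ,p} < ε` if `n = 2, 3` and `θ_{φ,p} < 1/4 + ε` if `n = 4, 5` (for comparison, for all primes
`7/64`, `5/14`, `9/22`, `6/13` are known for `n = 2, 3, 4, 5`): the number of the others is at most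
`A H y^{-1 + ⌊n/2⌋(1-2θ) + ε}`, and for `n = 2, 3` at most `A y^{2(θ' - θ) + ε}`, `θ' = 1/2 - 1/(n²+1)`, primes of every
interval of length `y^{1 - 2/(n²+1)}` have `θ_{φ,p} ≥ θ`; here `θ'` is the bound of Luo, Rudnick and Sarnak for all
primes. With `k` large one gets a power saving over the trivial bound as soon as `y` is larger than a fixed, arbitrarily
small, power of `M`, that is, of the analytic conductor. The result `AlmostAllPrimes` of this problem is for the initial
intervals `p ≤ x`, `DensityTheorem` is for a fixed prime and varying forms.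

Used are the structure `SphericalCuspForm` of the former results on this problem (unitarity; absolute convergence of
`L(s, π × π~)` for `Re s > 1`, its continuation, growth and functional equation) and the bounds of Jacquet and Shalika.

The proof. Let `L(s, π × π~) = ∑_l c_l e^{-s Λ_l}`, `c_l ≥ 0`. For `0 < η ≤ 1` the sum `∑ c_l exp(-(log X - Λ_l)² / 4η²)`,
minus `η e^{η² - 1}` times the one for `η = 1` (which removes the pole), is an integral over `Re s = 2`; it is
shifted to `Re s = -σ`. By the functional equation the integrand is a product of Gamma factors times an absolutely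
convergent series `∑ d_m e^{i t ν_m}`. A second derivative test (the phase of the Gamma factors has second derivative
`≍ -n²/t` for `t ≥ 100 M`) bounds the integral of each term by `C (M^{n²/2 + 1} + η^{-(n²+1)/2})^{1+ε}`, so that
`∑_{Λ_l ∈ [log X, log X + η]} c_l ≤ A η X^{1+ε}` for `η ≥ X^{-2/(n²+1)}`, `X ≥ M^{(n²+2)/2}`. Among the terms are the products
`∏ |s_j(p_i)|² / (k! j^k)`, `s_j(p) = ∑_i α_{i,p}^j`, for `k` primes `p_i` of the interval, with `X = y^{jk}`; hence
`∑_{y < p ≤ y + H} |s_j(p)|² ≤ A y^{j+ε} max(H / y, y^{-2jk/(n²+1)})^{1/k}`. If some parameter at `p` has absolute value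
`R ≥ 2`, then `|s_j(p)| ≥ R^j / (2n)` for some `j ≤ n/2` (from `AlmostAllPrimes`).
-/

set_option autoImplicit false

namespace Pool.Agent.Results.MP_fa98d2_nt.ShortIntervals

open Pool.Agent.TH949.RES (SphericalCuspForm)
open Run7.h716.SI (excI)

/-- **The Ramanujan conjecture at the primes of short intervals.** Here `excI α θ y H` is the set of the primes
`p ∈ (y, y + H]` with `θ ≤ |log_p |α_{i,p}||` for some `i`. -/
theorem result {n : ℕ} (hn : 2 ≤ n) {ε : ℝ} (hε : 0 < ε) {k : ℕ} (hk : 1 ≤ k) : ∃ A : ℝ, 0 < A ∧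
    ∀ (α : Nat.Primes → Fin n → ℂ) (μ : Fin n → ℂ), SphericalCuspForm α μ →
      (∀ (p : Nat.Primes) i, ‖α p i‖ < ((p : ℕ) : ℝ) ^ (1 / 2 : ℝ)) → (∀ i, |(μ i).re| < 1 / 2) →
      ∀ M : ℝ, (∀ i j, 1 + ‖μ i - μ j‖ ≤ M) → ∀ y H : ℝ, 1 ≤ y → 1 ≤ H → H ≤ y →
        M ^ (((n : ℝ) ^ 2 + 2) / 2) ≤ y ^ k → ∀ θ : ℝ, 0 ≤ θ →
        ((excI α θ y H).ncard : ℝ) ≤ A * y ^ (((n / 2 : ℕ) : ℝ) * (1 - 2 * θ) + ε) *
          (max (H / y) (y ^ (-(2 * (k : ℝ) / ((n : ℝ) ^ 2 + 1))))) ^ (1 / (k : ℝ)) :=
  Run7.h716.SI.count hn hε hk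

end Pool.Agent.Results.MP_fa98d2_nt.ShortIntervals
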